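import Pool.Agent.R877.RN.Stm

/-! Project RN: CHN from FLAG -/

set_option autoImplicit false

namespace R877.RN
open Matrix Filter Topology

theorem chn_par_add {n : ℕ} {a : Fin n → ℝ} {X Y : Mat n} (hX : Par a X) (hY : Par a Y) :
    Par a (X + Y) := by
  intro i j h
  by_cases h1 : X i j = 0
  · apply hY
    intro h2
    apply h
    rw [Matrix.add_apply, h1, h2, add_zero]
  · exact hX i j h1

theorem chn_cm_add {n : ℕ} {l : Mat n} {a : Fin n → ℝ} {X Y : Mat n} (hX : CM l a X)
    (hY : CM l a Y) : CM l a (X + Y) := by
  unfold CM at *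
  rw [Matrix.mul_add, Matrix.add_mul]
  exact chn_par_add hX hY

theorem chn_cm_smul {n : ℕ} {l : Mat n} {a : Fin n → ℝ} {X : Mat n} (r : ℝ) (hX : CM l a X) :
    CM l a (r • X) := by
  unfold CM at *
  rw [Matrix.mul_smul, Matrix.smul_mul]
  intro i j h
  apply hX
  intro h1
  apply h
  rw [Matrix.smul_apply, h1, smul_zero]

theorem chn_cm_zero {n : ℕ} (l : Mat n) (a : Fin n → ℝ) : CM l a 0 := by
  unfold CM
  rw [Matrix.mul_zero, Matrix.zero_mul]
  intro i j h
  exact absurd rfl h

theorem chn_cs_cm {n : ℕ} {l : Mat n} {a : Fin n → ℝ} {X : Mat n} (hX : CS l a X) :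
    CM l a X := by
  intro i j h
  exact (hX i j h).le

theorem p_CHN (hF : P_FLAG) : P_CHN := by
  intro n m μ A S N T h1 hT hSA hSS hch l a hl hCB hCS
  have key : ∀ j, j ≤ m → ∃ l' : Mat n, IsO l' ∧ CB l' a μ ∧ (∀ S ∈ T, CS l' a S) ∧
      (∀ i : Fin m, (i : ℕ) < j → CM l' a (A i)) ∧ ∀ S ∈ T, dt S l' a = dt S l a := by
    intro j
    induction j with
    | zero =>
      intro _
      exact ⟨l, hl, hCB, hCS, fun i hi => absurd hi (Nat.not_lt_zero _), fun S _ => rfl⟩
    | succ j ih =>
      intro hj
      obtain ⟨l1, q1, q2, q3, q4, q5⟩ := ih (by omega)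
      set J : Fin m := ⟨j, by omega⟩ with hJ
      obtain ⟨e1, e2, e3, e4⟩ := h1 J
      have hN : N J = A J - S J := by rw [e1]; abel
      obtain ⟨l2, r1, r2, r3, r4, r5, r6⟩ := hF n μ (N J) T
        (Submodule.span ℝ (A '' {i' | i' < J})) e3 e4
        (by
          intro S' hS'
          refine ⟨hT S' hS', ?_⟩
          rw [hN, Matrix.mul_sub, Matrix.sub_mul, hSA S' hS' J, hSS S' hS' (S J) e2])
        (by
          intro X hX
          induction hX using Submodule.span_induction with
          | mem x hx =>
            obtain ⟨i, hi, rfl⟩ := hx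
            have h3 : N J * A i - A i * N J = A J * A i - A i * A J := by
              rw [hN, Matrix.sub_mul, Matrix.mul_sub, hSA (S J) e2 i]
              abel
            rw [h3]
            exact hch i J hi
          | zero => simp
          | add x y _ _ hx hy =>
            have h3 : N J * (x + y) - (x + y) * N J = (N J * x - x * N J) + (N J * y - y * N J) := by
              rw [Matrix.mul_add, Matrix.add_mul]
              abel
            rw [h3]
            exact Submodule.add_mem _ hx hy
          | smul r x _ hx =>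
            have h3 : N J * (r • x) - (r • x) * N J = r • (N J * x - x * N J) := by
              rw [Matrix.mul_smul, Matrix.smul_mul, smul_sub]
            rw [h3]
            exact Submodule.smul_mem _ r hx)
        l1 a q1 q2 q3
        (by
          intro X hX
          induction hX using Submodule.span_induction with
          | mem x hx =>
            obtain ⟨i, hi, rfl⟩ := hx
            exact q4 i hi
          | zero => exact chn_cm_zero l1 a
          | add x y _ _ hx hy => exact chn_cm_add hx hy
          | smul r x _ hx => exact chn_cm_smul r hx)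
      refine ⟨l2, r1, r2, r3, ?_, fun S' hS' => (r6 S' hS').trans (q5 S' hS')⟩
      intro i hi
      rcases Nat.lt_or_ge (i : ℕ) j with h | h
      · exact r4 _ (Submodule.subset_span ⟨i, h, rfl⟩)
      · have hiJ : i = J := Fin.ext (by simp only [hJ]; omega)
        rw [hiJ, e1]
        exact chn_cm_add (chn_cs_cm (r3 _ e2)) r5
  obtain ⟨l', s1, s2, s3, s4, s5⟩ := key m le_rfl
  exact ⟨l', s1, s2, s3, fun i => s4 i i.isLt, s5⟩

end R877.RN
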