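import Pool.Agent.R877.RN.Stm

/-! Project RN: KN from KNMIN, EL, MCOM, DERACT -/

set_option autoImplicit false

namespace R877.RN
open Matrix Filter Topology

theorem kn_asym {n : ℕ} (c : Mat n) (μ : Br n) (h : Asym μ) : Asym (act c μ) := by
  intro i j k
  unfold act
  rw [Finset.sum_comm, ← Finset.sum_neg_distrib]
  refine Finset.sum_congr rfl fun p _ => ?_
  rw [← Finset.sum_neg_distrib]
  refine Finset.sum_congr rfl fun q _ => ?_
  rw [← Finset.sum_neg_distrib]
  refine Finset.sum_congr rfl fun r _ => ?_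
  rw [h q p r]
  ring

theorem kn_Mm_symm {n : ℕ} (μ : Br n) : (Mm μ)ᵀ = Mm μ := by
  ext i j
  rw [Matrix.transpose_apply]
  unfold Mm
  congr 1
  · congr 1
    exact Finset.sum_congr rfl fun p _ => Finset.sum_congr rfl fun k _ => mul_comm _ _
  · congr 1
    exact Finset.sum_congr rfl fun p _ => Finset.sum_congr rfl fun k _ => mul_comm _ _

theorem kn_zero {n : ℕ} (X : Mat n) (hX : Xᵀ = X) (h : (X * X).trace = 0) : X = 0 := by
  have h1 : (X * X).trace = ∑ i, ∑ j, (X i j) ^ 2 := by
    rw [Matrix.trace]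
    refine Finset.sum_congr rfl fun i _ => ?_
    rw [Matrix.diag_apply, Matrix.mul_apply]
    refine Finset.sum_congr rfl fun j _ => ?_
    have : X j i = X i j := by
      have := congrFun (congrFun hX i) j
      rwa [Matrix.transpose_apply] at this
    rw [this]
    ring
  rw [h1] at h
  ext i j
  have h2 := (Finset.sum_eq_zero_iff_of_nonneg
    (fun i _ => Finset.sum_nonneg fun j _ => sq_nonneg (X i j))).mp h i (Finset.mem_univ _)
  have h3 := (Finset.sum_eq_zero_iff_of_nonneg
    (fun j _ => sq_nonneg (X i j))).mp h2 j (Finset.mem_univ _)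
  simpa using h3

theorem p_KN (h1 : P_KNMIN) (h2 : P_EL) (h3 : P_MCOM) (h4 : P_DERACT) : P_KN := by
  intro n μ N T d r hA hT hd hSS hder hSN hcrit
  obtain ⟨c, hc, hmin⟩ := h1 n μ N T d r hT hd hcrit
  refine ⟨c, hc, ?_⟩
  have hEL := h2 n μ N T d r c hA hT hd hc hmin
  obtain ⟨hdet, hcomm⟩ := hc
  have hcc : c * c⁻¹ = 1 := Matrix.mul_nonsing_inv c hdet
  have hcc' : c⁻¹ * c = 1 := Matrix.nonsing_inv_mul c hdet
  -- `S` commutes with `c⁻¹`
  have hinv : ∀ S ∈ T, S * c⁻¹ = c⁻¹ * S := by
    intro S hS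
    calc S * c⁻¹ = c⁻¹ * c * (S * c⁻¹) := by rw [hcc', Matrix.one_mul]
      _ = c⁻¹ * (c * S) * c⁻¹ := by simp only [Matrix.mul_assoc]
      _ = c⁻¹ * (S * c) * c⁻¹ := by rw [hcomm S hS]
      _ = c⁻¹ * S * (c * c⁻¹) := by simp only [Matrix.mul_assoc]
      _ = c⁻¹ * S := by rw [hcc, Matrix.mul_one]
  have hconjS : ∀ S ∈ T, conj c S = S := by
    intro S hS
    unfold conj
    rw [← hcomm S hS, Matrix.mul_assoc, hcc, Matrix.mul_one]
  have hconjN : ∀ S ∈ T, S * conj c N = conj c N * S := by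
    intro S hS
    unfold conj
    calc S * (c * N * c⁻¹) = (S * c) * N * c⁻¹ := by simp only [Matrix.mul_assoc]
      _ = c * (S * N) * c⁻¹ := by rw [hcomm S hS]; simp only [Matrix.mul_assoc]
      _ = c * N * (S * c⁻¹) := by rw [hSN S hS]; simp only [Matrix.mul_assoc]
      _ = c * N * c⁻¹ * S := by rw [hinv S hS]; simp only [Matrix.mul_assoc]
  -- commutation with transposes
  have htr : ∀ M : Mat n, (∀ S ∈ T, S * M = M * S) → ∀ S ∈ T, S * Mᵀ = Mᵀ * S := by
    intro M hM S hS
    have h5 := congrArg Matrix.transpose (hM Sᵀ (hT S hS))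
    rw [Matrix.transpose_mul, Matrix.transpose_mul, Matrix.transpose_transpose] at h5
    exact h5.symm
  have hcomT := htr _ hconjN
  have hcT := htr _ hcomm
  have hder' : ∀ S ∈ T, IsDer S (act c μ) := by
    intro S hS
    have h5 := h4 n c S μ hdet (hder S hS)
    rwa [hconjS S hS] at h5
  have hM : ∀ S ∈ T, S * Mm (act c μ) = Mm (act c μ) * S := by
    intro S hS
    exact (h3 n (act c μ) S (kn_asym c μ hA) (hder' S hS) (hder' _ (hT S hS))).symm
  have hD : ∀ S ∈ T, S * diagonal d = diagonal d * S := by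
    intro S hS
    have h5 := hSS S hS _ hd
    have h6 : (diagonal (fun i => d i + r) : Mat n) = diagonal d + r • (1 : Mat n) := by
      ext i j
      by_cases hij : i = j
      · subst hij
        simp
      · simp [hij]
    rw [h6, Matrix.mul_add, Matrix.add_mul, Matrix.mul_smul, Matrix.smul_mul, Matrix.mul_one,
      Matrix.one_mul] at h5
    exact add_right_cancel h5
  set X : Mat n := Mm (act c μ) + (1/2 : ℝ) • com (conj c N) + c * cᵀ - diagonal d with hX
  have hXs : Xᵀ = X := by
    rw [hX]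
    unfold com
    simp only [Matrix.transpose_add, Matrix.transpose_sub, Matrix.transpose_smul,
      Matrix.transpose_mul, Matrix.transpose_transpose, kn_Mm_symm, Matrix.diagonal_transpose]
  have hXc : ∀ S ∈ T, S * X = X * S := by
    intro S hS
    have g1 : S * com (conj c N) = com (conj c N) * S := by
      unfold com
      rw [Matrix.mul_sub, Matrix.sub_mul, ← Matrix.mul_assoc, ← Matrix.mul_assoc,
        hconjN S hS, hcomT S hS, Matrix.mul_assoc, Matrix.mul_assoc, hcomT S hS, hconjN S hS,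
        ← Matrix.mul_assoc, ← Matrix.mul_assoc]
    have g2 : S * (c * cᵀ) = c * cᵀ * S := by
      rw [← Matrix.mul_assoc, hcomm S hS, Matrix.mul_assoc, hcT S hS, ← Matrix.mul_assoc]
    rw [hX, Matrix.mul_sub, Matrix.sub_mul, Matrix.mul_add, Matrix.mul_add, Matrix.add_mul,
      Matrix.add_mul, Matrix.mul_smul, Matrix.smul_mul, hM S hS, g1, g2, hD S hS]
  have h0 := kn_zero X hXs (hEL X hXs hXc)
  exact sub_eq_zero.mp h0

end R877.RN
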