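import Pool.Agent.R877.RN.Stm2

/-! Project RN: TRN -/

set_option autoImplicit false

namespace R877.RN
open Matrix Filter Topology

theorem p_TRN : P_TRN := by
  intro g _ _ _ n N β hn x
  have hf : ∀ y, LieAlgebra.ad ℝ g x y ∈ n.toSubmodule := by
    intro y
    rw [LieAlgebra.ad_apply]
    exact hn x y
  have h1 := LinearMap.trace_restrict_eq_of_forall_mem n.toSubmodule (LieAlgebra.ad ℝ g x) hf
  rw [← h1]
  have h2 := LinearMap.trace_eq_matrix_trace ℝ β
    ((LieAlgebra.ad ℝ g x).restrict (fun y (_ : y ∈ n.toSubmodule) => hf y))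
  refine h2.trans ?_
  unfold Matrix.trace
  refine Finset.sum_congr rfl fun i _ => ?_
  rw [Matrix.diag_apply, Matrix.diag_apply, LinearMap.toMatrix_apply]
  rfl

end R877.RN
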