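import Pool.Agent.R877.RN.Stm2

/-! Project RN: ZOPEN -/

set_option autoImplicit false

namespace R877.RN
open Matrix Filter Topology

theorem zopen_cont {N : ℕ} : Continuous (fun z : Br N × (Fin N → ℝ) => RF z.1 z.2) := by
  unfold RF
  fun_prop

theorem zopen_hom {N : ℕ} (c : Br N) (t : ℝ) (x : Fin N → ℝ) :
    RF c (fun i => t * x i) = t ^ 2 * RF c x := by
  have e1 : ∀ i k, ∑ p, (t * x p) * c p i k = t * ∑ p, x p * c p i k := by
    intro i k
    rw [Finset.mul_sum]
    exact Finset.sum_congr rfl fun p _ => by ring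
  have e2 : ∀ i j, ∑ k, (t * x k) * c i j k = t * ∑ k, x k * c i j k := by
    intro i j
    rw [Finset.mul_sum]
    exact Finset.sum_congr rfl fun p _ => by ring
  have e3 : ∀ a, ∑ p, ∑ q, (t * x p) * c a p q * (t * x q) =
      t ^ 2 * ∑ p, ∑ q, x p * c a p q * x q := by
    intro a
    rw [Finset.mul_sum]
    refine Finset.sum_congr rfl fun p _ => ?_
    rw [Finset.mul_sum]
    exact Finset.sum_congr rfl fun q _ => by ring
  unfold RF
  simp only [e1, e2, e3]
  have f1 : ∑ i, ∑ k, (t * ∑ p, x p * c p i k) ^ 2 = t ^ 2 * ∑ i, ∑ k, (∑ p, x p * c p i k) ^ 2 := by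
    rw [Finset.mul_sum]
    refine Finset.sum_congr rfl fun p _ => ?_
    rw [Finset.mul_sum]
    exact Finset.sum_congr rfl fun q _ => by ring
  have f2 : ∑ i, ∑ k, (t * ∑ p, x p * c p i k) * (t * ∑ p, x p * c p k i) =
      t ^ 2 * ∑ i, ∑ k, (∑ p, x p * c p i k) * (∑ p, x p * c p k i) := by
    rw [Finset.mul_sum]
    refine Finset.sum_congr rfl fun p _ => ?_
    rw [Finset.mul_sum]
    exact Finset.sum_congr rfl fun q _ => by ring
  have f3 : ∑ i, ∑ j, (t * ∑ k, x k * c i j k) ^ 2 = t ^ 2 * ∑ i, ∑ j, (∑ k, x k * c i j k) ^ 2 := by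
    rw [Finset.mul_sum]
    refine Finset.sum_congr rfl fun p _ => ?_
    rw [Finset.mul_sum]
    exact Finset.sum_congr rfl fun q _ => by ring
  have f4 : ∑ a, (∑ i, c a i i) * (t ^ 2 * ∑ p, ∑ q, x p * c a p q * x q) =
      t ^ 2 * ∑ a, (∑ i, c a i i) * ∑ p, ∑ q, x p * c a p q * x q := by
    rw [Finset.mul_sum]
    exact Finset.sum_congr rfl fun q _ => by ring
  rw [f1, f2, f3, f4]
  ring

theorem zopen_one {N : ℕ} (μ : Br N) : act (1 : Mat N) μ = μ := by
  funext i j k
  unfold act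
  rw [inv_one]
  rw [Finset.sum_eq_single i, Finset.sum_eq_single j, Finset.sum_eq_single k]
  · simp
  · intro r _ hr
    rw [Matrix.one_apply_ne (Ne.symm hr)]
    ring
  · intro h; exact absurd (Finset.mem_univ _) h
  · intro q _ hq
    refine Finset.sum_eq_zero fun r _ => ?_
    rw [Matrix.one_apply_ne hq]
    ring
  · intro h; exact absurd (Finset.mem_univ _) h
  · intro p _ hp
    refine Finset.sum_eq_zero fun q _ => Finset.sum_eq_zero fun r _ => ?_
    rw [Matrix.one_apply_ne hp]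
    ring
  · intro h; exact absurd (Finset.mem_univ _) h

theorem zopen_act {N : ℕ} (μ : Br N) (σ : Mat N) :
    Tendsto (fun ε : ℝ => act (1 + ε • σ) μ) (𝓝 0) (𝓝 μ) := by
  have hc : Continuous (fun ε : ℝ => (1 + ε • σ : Mat N)) := by fun_prop
  have hdet : Continuous (fun ε : ℝ => (1 + ε • σ : Mat N).det) := hc.matrix_det
  have hadj : Continuous (fun ε : ℝ => (1 + ε • σ : Mat N).adjugate) := hc.matrix_adjugate
  have hinv : ∀ p i, ContinuousAt (fun ε : ℝ => ((1 + ε • σ : Mat N)⁻¹) p i) 0 := by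
    intro p i
    have e : (fun ε : ℝ => ((1 + ε • σ : Mat N)⁻¹) p i) =
        fun ε : ℝ => ((1 + ε • σ : Mat N).det)⁻¹ * (1 + ε • σ : Mat N).adjugate p i := by
      funext ε
      rw [Matrix.inv_def, Matrix.smul_apply, Ring.inverse_eq_inv', smul_eq_mul]
    rw [e]
    apply ContinuousAt.mul
    · apply ContinuousAt.inv₀ hdet.continuousAt
      simp
    · exact (hadj.matrix_elem p i).continuousAt
  have h1 : ContinuousAt (fun ε : ℝ => act (1 + ε • σ) μ) 0 := by
    rw [continuousAt_pi]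
    intro i
    rw [continuousAt_pi]
    intro j
    rw [continuousAt_pi]
    intro k
    unfold act
    apply tendsto_finsetSum
    intro p _
    apply tendsto_finsetSum
    intro q _
    apply tendsto_finsetSum
    intro r _
    exact (((hc.matrix_elem k r).continuousAt.mul continuousAt_const).mul (hinv p i)).mul
      (hinv q j)
  have h2 : act (1 + (0 : ℝ) • σ) μ = μ := by
    rw [zero_smul, add_zero, zopen_one]
  have h3 : Tendsto (fun ε : ℝ => act (1 + ε • σ) μ) (𝓝 0) (𝓝 (act (1 + (0 : ℝ) • σ) μ)) := h1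
  rwa [h2] at h3

theorem p_OPENN : P_OPENN := by
  intro N μ σ hneg
  have hK : IsCompact (Metric.sphere (0 : Fin N → ℝ) 1) := isCompact_sphere _ _
  have h1 : ∀ᶠ c in 𝓝 μ, ∀ x ∈ Metric.sphere (0 : Fin N → ℝ) 1, RF c x < 0 := by
    apply hK.eventually_forall_of_forall_eventually
    intro x hx
    have hx0 : x ≠ 0 := by
      rintro rfl
      simp at hx
    have h2 : RF μ x < 0 := hneg x hx0
    exact (zopen_cont.tendsto (μ, x)).eventually (gt_mem_nhds h2)
  have h2 : ∀ᶠ ε : ℝ in 𝓝 0, ∀ x ∈ Metric.sphere (0 : Fin N → ℝ) 1,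
      RF (act (1 + ε • σ) μ) x < 0 := (zopen_act μ σ).eventually h1
  have h3 : ∀ᶠ ε : ℝ in 𝓝 0, (1 + ε • σ : Mat N).det ≠ 0 := by
    have hdet : Continuous (fun ε : ℝ => (1 + ε • σ : Mat N).det) := by
      have hc : Continuous (fun ε : ℝ => (1 + ε • σ : Mat N)) := by fun_prop
      exact hc.matrix_det
    apply (hdet.tendsto 0).eventually_ne
    simp
  apply Filter.Eventually.filter_mono nhdsWithin_le_nhds
  filter_upwards [h2, h3] with ε h2 h3
  refine ⟨isUnit_iff_ne_zero.mpr h3, fun x hx => ?_⟩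
  have hnx : 0 < ‖x‖ := norm_pos_iff.mpr hx
  have h4 := h2 (fun i => ‖x‖⁻¹ * x i) (by
    rw [mem_sphere_zero_iff_norm]
    have e : (fun i => ‖x‖⁻¹ * x i) = ‖x‖⁻¹ • x := rfl
    rw [e, norm_smul, norm_inv, norm_norm, inv_mul_cancel₀ hnx.ne'])
  rw [zopen_hom] at h4
  have h5 : 0 < (‖x‖⁻¹) ^ 2 := by positivity
  by_contra hcon
  push Not at hcon
  have := mul_nonneg h5.le hcon
  linarith

end R877.RN
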